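import Pool.Agent.Helper27.RV.St

/-!
# Project RV (MP_60edf5), module CVC
-/

set_option autoImplicit false

open Cardinal Ordinal Set

universe u

namespace Pool.Agent.Helper28.RV

open Pool.Agent.Helper27.RV

theorem pCVC : StCVC := by
  intro K β δ m t hm hδ htm ht hcof hcov
  have h0 : 0 < t := ht.bot_lt
  obtain ⟨g, hg1, hg2⟩ := enum_cof (K := t.cof.out) (t := t) (by rw [mk_out]) h0
  have hg3 : ∀ a < t, ∃ k, a < g k := by
    intro a ha
    obtain ⟨k, hk⟩ := hg2 _ (ht.succ_lt ha)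
    exact ⟨k, (Order.lt_succ a).trans_le hk⟩
  have h1 : ∀ i, Cov K β δ m (g i) := fun i => hcov _ (hg1 i)
  choose ι hι P hP using h1
  have hcm : #t.cof.out < m := by
    rw [mk_out]
    exact (Ordinal.cof_le_card t).trans_lt (Cardinal.lt_ord.1 htm)
  refine ⟨Σ i, ι i, ?_, fun p k => P p.1 p.2 k, ?_⟩
  · rw [mk_sigma]
    exact sum_lt_of_isRegular hm hcm hι
  intro y hy
  have h2 : ∀ i, ∃ I : Set (ι i), #I ≤ δ ∧ ∀ e, y e < g i → ∃ j ∈ I, ∃ k, y e = P i j k := by
    intro i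
    by_cases hgi : 0 < g i
    · obtain ⟨I, hI, hI2⟩ := hP i (fun e => if y e < g i then y e else 0) (by
        intro e
        split_ifs with h
        · exact h
        · exact hgi)
      refine ⟨I, hI, fun e he => ?_⟩
      obtain ⟨j, hj, k, hk⟩ := hI2 e
      simp only [he, if_true] at hk
      exact ⟨j, hj, k, hk⟩
    · refine ⟨∅, by simp, fun e he => ?_⟩
      exact absurd (bot_le.trans_lt he) hgi
  choose I hI hI2 using h2
  refine ⟨⋃ i, Sigma.mk i '' I i, ?_, ?_⟩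
  · calc #(⋃ i, Sigma.mk i '' I i : Set (Σ i, ι i))
        ≤ sum (fun i => #(Sigma.mk i '' I i : Set (Σ i, ι i))) := mk_iUnion_le_sum_mk
      _ ≤ sum (fun _ : t.cof.out => δ) := sum_le_sum _ _ (fun i => mk_image_le.trans (hI i))
      _ = #t.cof.out * δ := by rw [sum_const']
      _ ≤ δ * δ := by
        rw [mk_out]
        exact mul_le_mul' hcof le_rfl
      _ = δ := mul_eq_self hδ
  · intro e
    obtain ⟨i, hi⟩ := hg3 _ (hy e)
    obtain ⟨j, hj, k, hk⟩ := hI2 i e hi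
    exact ⟨⟨i, j⟩, mem_iUnion.2 ⟨i, mem_image_of_mem _ hj⟩, k, hk⟩

end Pool.Agent.Helper28.RV
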