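import Pool.Agent.Helper27.RV.StL

/-!
# Project RV (MP_60edf5), module WY
-/

set_option autoImplicit false

open Cardinal Ordinal Set Filter

universe u

namespace Pool.Agent.Helper28.RV

open Pool.Agent.Helper27.RV Pool.Agent.Helper36.VC Pool.Agent.Helper65.GS

private theorem key {X : Type u} {κ : Cardinal.{u}} {W : Filter X} {A : Set X}
    {t l : Ordinal.{u}} {f : Ordinal.{u} → X → Ordinal.{u}} (h : Sit κ W A t l f)
    {β : Type u} {th s : Ordinal.{u}} {S : Ordinal.{u} → β → Ordinal.{u}}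
    (hst : s ≤ t) (hS : ∀ v < t, ∀ e, S v e < s) (hs : ∀ᶠ x in W, x ∈ A → s ≤ f th x)
    {y : Ordinal.{u}} (hy : y < l) (e : β) :
    ∃ w : ℕ → Ordinal.{u}, (∀ n, w n < th) ∧
      ∀ᶠ x in W, x ∈ A → ∃ n, S (f y x) e = f (w n) x := by
  obtain ⟨C, hC⟩ : ∃ C : Set Ordinal.{u},
      C = {c ∈ Iio l | Pos W {x ∈ A | f c x = S (f y x) e}} := ⟨_, rfl⟩
  have hCc : C.Countable := by
    rw [hC]
    refine countable_of_ae_ne (B := A) h.sat (Iio l) f ?_ (fun x => S (f y x) e)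
    intro a ha b hb hab
    rcases lt_or_gt_of_ne hab with h1 | h1
    · filter_upwards [h.rep.inc a b h1 hb] with x hx hxB
      exact (hx hxB).ne
    · filter_upwards [h.rep.inc b a h1 ha] with x hx hxB
      exact (hx hxB).ne'
  have hCth : ∀ c ∈ C, c < th := by
    intro c hcC
    rw [hC] at hcC
    obtain ⟨hc, hp⟩ := hcC
    have h1 := hp.ae (p := fun x => f y x < t ∧ s ≤ f th x)
      (((h.rep.bd y hy).and hs).mono fun x hx hxB => ⟨hx.1 hxB.1, hx.2 hxB.1⟩)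
    refine h.rep.lt_of_lt (fun x hx => hx.1.1) h1 hc ?_
    intro x hx
    rw [hx.1.2]
    exact (hS _ hx.2.1 e).trans_le hx.2.2
  have hae : ∀ᶠ x in W, x ∈ A → ∃ c ∈ C, S (f y x) e = f c x := by
    by_contra hcon
    have hpos : Pos W {x ∈ A | f y x < t ∧ ∀ c ∈ C, S (f y x) e ≠ f c x} := by
      intro hc
      apply hcon
      filter_upwards [hc, h.rep.bd y hy] with x hx hx2 hxA
      by_contra hne
      push Not at hne
      exact hx ⟨hxA, hx2 hxA, hne⟩
    obtain ⟨c, hcl, hc⟩ := h.rep.onto _ (fun x hx => hx.1) hpos (fun x => S (f y x) e)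
      (fun x hx => (hS _ hx.2.1 e).trans_le hst)
    have hcC : c ∈ C := by
      rw [hC]
      exact ⟨hcl, hc.mono fun x hx => ⟨hx.1.1, hx.2.symm⟩⟩
    obtain ⟨x, hx⟩ := hc.nonempty
    exact hx.1.2.2 c hcC hx.2
  have hne : C.Nonempty := by
    obtain ⟨x, hx⟩ := (h.pos.ae hae).nonempty
    obtain ⟨c, hc, -⟩ := hx.2
    exact ⟨c, hc⟩
  obtain ⟨w, hw⟩ := hCc.exists_eq_range hne
  refine ⟨w, fun n => hCth _ (by rw [hw]; exact mem_range_self n), ?_⟩
  filter_upwards [hae] with x hx hxA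
  obtain ⟨c, hc, hc2⟩ := hx hxA
  rw [hw] at hc
  obtain ⟨n, rfl⟩ := hc
  exact ⟨n, hc2⟩

theorem pWY : StWY := by
  intro X κ W A t l f h β th s S hβ _ hst hS hs y hy
  have h1 := fun e => key h hst hS hs hy e
  choose w hw1 hw2 using h1
  refine ⟨w, hw1, ?_⟩
  have := h.compl
  have h2 : ∀ᶠ x in W, ∀ e, x ∈ A → ∃ n, S (f y x) e = f (w e n) x :=
    (eventually_cardinal_forall hβ).2 hw2
  filter_upwards [h2] with x hx hxA e
  exact hx e hxA

end Pool.Agent.Helper28.RV
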